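import Pool.Agent.Work.MP_1233f5_ag.X.Stmts

set_option autoImplicit false

namespace Pool.Agent.Work.MP_1233f5_ag.V

open Finset

variable {K : Type} [Field K] {B : Type} [DecidableEq B]

theorem wdg_add {p : ℕ} (b : B) (c c' : (Fin p → B) → K) :
    wdg b (fun t => c t + c' t) = fun t => wdg b c t + wdg b c' t := by
  funext t
  simp only [wdg]
  rw [← Finset.sum_add_distrib]
  refine Finset.sum_congr rfl (fun i _ => ?_)
  split_ifs <;> ring

theorem wdg_smul {p : ℕ} (b : B) (a : K) (c : (Fin p → B) → K) :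
    wdg b (fun t => a * c t) = fun t => a * wdg b c t := by
  funext t
  simp only [wdg]
  rw [Finset.mul_sum]
  refine Finset.sum_congr rfl (fun i _ => ?_)
  split_ifs <;> ring

theorem wdg_zero {p : ℕ} (b : B) : wdg b (fun _ : Fin p → B => (0 : K)) = fun _ => 0 := by
  funext t; simp [wdg]

theorem wdg_sum {ι : Type*} {p : ℕ} (b : B) (s : Finset ι) (c : ι → (Fin p → B) → K) :
    wdg b (fun t => ∑ i ∈ s, c i t) = fun t => ∑ i ∈ s, wdg b (c i) t := by
  classical
  induction s using Finset.induction_on with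
  | empty => simp [wdg_zero]
  | insert a s ha ih =>
    have : (fun t => ∑ i ∈ insert a s, c i t) = fun t => c a t + ∑ i ∈ s, c i t := by
      funext t; rw [Finset.sum_insert ha]
    rw [this, wdg_add, ih]
    funext t; rw [Finset.sum_insert ha]

omit [DecidableEq B] in
theorem dd_sum {ι : Type*} {p : ℕ} (M : Finset B) (s : Finset ι) (c : ι → (Fin (p + 1) → B) → K) :
    dd M (fun t => ∑ i ∈ s, c i t) = fun t => ∑ i ∈ s, dd M (c i) t := by
  funext t; simp only [dd]; rw [Finset.sum_comm]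

omit [DecidableEq B] in
theorem dd_smul {p : ℕ} (M : Finset B) (a : K) (c : (Fin (p + 1) → B) → K) :
    dd M (fun t => a * c t) = fun t => a * dd M c t := by
  funext t; simp only [dd]; rw [Finset.mul_sum]

theorem wdgs_add {p : ℕ} : ∀ (m : ℕ) (e : Fin m → B) (c c' : (Fin p → B) → K),
    wdgs m e (fun t => c t + c' t) = fun t => wdgs m e c t + wdgs m e c' t
  | 0, _, _, _ => rfl
  | m + 1, e, c, c' => by
    simp only [wdgs]; rw [wdgs_add m]; exact wdg_add (p := p + m) _ _ _

theorem wdgs_smul {p : ℕ} : ∀ (m : ℕ) (e : Fin m → B) (a : K) (c : (Fin p → B) → K),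
    wdgs m e (fun t => a * c t) = fun t => a * wdgs m e c t
  | 0, _, _, _ => rfl
  | m + 1, e, a, c => by
    simp only [wdgs]; rw [wdgs_smul m]; exact wdg_smul (p := p + m) _ _ _

theorem wdgs_zero {p : ℕ} : ∀ (m : ℕ) (e : Fin m → B),
    wdgs m e (fun _ : Fin p → B => (0 : K)) = fun _ => 0
  | 0, _ => rfl
  | m + 1, e => by
    simp only [wdgs]; rw [wdgs_zero m]; exact wdg_zero (p := p + m) (e 0)

theorem Alt.wdgs {p : ℕ} {c : (Fin p → B) → K} (h : Alt p c) : ∀ (m : ℕ) (e : Fin m → B),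
    Alt (p + m) (wdgs m e c)
  | 0, _ => h
  | m + 1, e => (Alt.wdgs h m (Fin.tail e)).wdg (e 0)

/-- the version of `wdgs` for functions on `p + 1`-tuples with value on `p + m + 1`-tuples. -/
def wdgs1 {p : ℕ} : (m : ℕ) → (Fin m → B) → ((Fin (p + 1) → B) → K) →
    ((Fin (p + m + 1) → B) → K)
  | 0, _, c => c
  | m + 1, e, c => wdg (e 0) (wdgs1 m (Fin.tail e) c)

theorem Alt.wdgs1 {p : ℕ} {c : (Fin (p + 1) → B) → K} (h : Alt (p + 1) c) :
    ∀ (m : ℕ) (e : Fin m → B), Alt (p + m + 1) (wdgs1 m e c)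
  | 0, _ => h
  | m + 1, e => (Alt.wdgs1 h m (Fin.tail e)).wdg (e 0)

omit [DecidableEq B] in
theorem tail_removeNth_succ {m : ℕ} (e : Fin (m + 2) → B) (k : Fin (m + 1)) :
    Fin.tail (k.succ.removeNth e) = k.removeNth (Fin.tail e) := by
  funext i
  simp [Fin.tail, Fin.removeNth, Fin.succ_succAbove_succ]

omit [DecidableEq B] in
theorem removeNth_succ_zero {m : ℕ} (e : Fin (m + 2) → B) (k : Fin (m + 1)) :
    (k.succ.removeNth e) 0 = e 0 := by
  simp [Fin.removeNth]

omit [DecidableEq B] in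
theorem removeNth_zero_eq {m : ℕ} (e : Fin (m + 1) → B) :
    (0 : Fin (m + 1)).removeNth e = Fin.tail e := by
  funext i; simp [Fin.tail, Fin.removeNth]

/-- differential of an iterated product with a cycle. -/
theorem dd_wdgs_of_cycle {p : ℕ} (M : Finset B) (u : (Fin p → B) → K)
    (hu : ∀ (k : ℕ) (h : p = k + 1), ∀ t, dd M (fun s => u (fun i => s (Fin.cast h i))) t = 0) :
    ∀ (m : ℕ) (e : Fin (m + 1) → B), (∀ k, e k ∈ M) → ∀ t : Fin (p + m) → B,
      dd M (wdgs (m + 1) e u) t = ∑ k : Fin (m + 1), (-1) ^ (k : ℕ) * wdgs m (k.removeNth e) u t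
  | 0, e, he, t => by
    have hs : (∑ k : Fin (0 + 1), (-1 : K) ^ (k : ℕ) * wdgs 0 (k.removeNth e) u t) = u t := by
      have := Fin.sum_univ_one (fun k : Fin 1 => (-1 : K) ^ (k : ℕ) * wdgs 0 (k.removeNth e) u t)
      refine this.trans ?_
      simp [wdgs]
    rw [hs]
    cases p with
    | zero => exact dd_wdg_zero M (he 0) u t
    | succ k =>
      have h0 : dd M u = fun _ => 0 := by
        funext s
        have := hu k rfl s
        simpa using this
      have h1 := dd_wdg M (he 0) u t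
      rw [h0, wdg_zero] at h1
      have h2 : dd M (wdgs (0 + 1) e u) t = dd M (wdg (e 0) u) t := rfl
      rw [h2]
      linear_combination h1
  | m + 1, e, he, t => by
    have ih := dd_wdgs_of_cycle M u hu m (Fin.tail e) (fun k => he _)
    have h1 := dd_wdg (p := p + m) M (he 0) (wdgs (m + 1) (Fin.tail e) u) t
    have h2 : dd M (wdgs (m + 1 + 1) e u) t = dd M (wdg (e 0) (wdgs (m + 1) (Fin.tail e) u)) t :=
      rfl
    rw [h2]
    have h3 : dd M (wdgs (m + 1) (Fin.tail e) u) = fun s : Fin (p + m) → B =>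
        ∑ k : Fin (m + 1), (-1) ^ (k : ℕ) * wdgs m (k.removeNth (Fin.tail e)) u s := by
      funext s; exact ih s
    rw [h3, wdg_sum] at h1
    rw [Fin.sum_univ_succ]
    have h4 : ∀ k : Fin (m + 1), (-1 : K) ^ ((k.succ : Fin (m + 2)) : ℕ) *
        wdgs (m + 1) (k.succ.removeNth e) u t =
        - wdg (e 0) (fun s : Fin (p + m) → B =>
          (-1) ^ (k : ℕ) * wdgs m (k.removeNth (Fin.tail e)) u s) t := by
      intro k
      rw [wdg_smul]
      simp only [wdgs, removeNth_succ_zero, tail_removeNth_succ, Fin.val_succ, pow_succ]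
      ring
    rw [Finset.sum_congr rfl (fun k _ => h4 k), Finset.sum_neg_distrib, removeNth_zero_eq]
    simp only [Fin.val_zero, pow_zero, one_mul]
    linear_combination h1

/-- differential of an iterated product. -/
theorem dd_wdgs1 {p : ℕ} (M : Finset B) (u : (Fin (p + 1) → B) → K) :
    ∀ (m : ℕ) (e : Fin (m + 1) → B), (∀ k, e k ∈ M) → ∀ t : Fin (p + m + 1) → B,
      dd M (wdgs1 (m + 1) e u) t =
        ∑ k : Fin (m + 1), (-1) ^ (k : ℕ) * wdgs1 m (k.removeNth e) u t +
        (-1) ^ (m + 1) * wdgs (m + 1) e (dd M u) t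
  | 0, e, he, t => by
    have hs : (∑ k : Fin (0 + 1), (-1 : K) ^ (k : ℕ) * wdgs1 0 (k.removeNth e) u t) = u t := by
      have := Fin.sum_univ_one (fun k : Fin 1 => (-1 : K) ^ (k : ℕ) * wdgs1 0 (k.removeNth e) u t)
      refine this.trans ?_
      simp [wdgs1]
    rw [hs]
    have h1 := dd_wdg M (he 0) u t
    have h2 : dd M (wdgs1 (0 + 1) e u) t = dd M (wdg (e 0) u) t := rfl
    have h3 : wdgs (0 + 1) e (dd M u) t = wdg (e 0) (dd M u) t := rfl
    rw [h2, h3]
    linear_combination h1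
  | m + 1, e, he, t => by
    have ih := dd_wdgs1 M u m (Fin.tail e) (fun k => he _)
    have h1 := dd_wdg (p := p + m + 1) M (he 0) (wdgs1 (m + 1) (Fin.tail e) u) t
    have h2 : dd M (wdgs1 (m + 1 + 1) e u) t =
      dd M (wdg (e 0) (wdgs1 (m + 1) (Fin.tail e) u)) t := rfl
    rw [h2]
    have h3 : dd M (wdgs1 (m + 1) (Fin.tail e) u) = fun s : Fin (p + m + 1) → B =>
        ∑ k : Fin (m + 1), (-1) ^ (k : ℕ) * wdgs1 m (k.removeNth (Fin.tail e)) u s +
        (-1) ^ (m + 1) * wdgs (m + 1) (Fin.tail e) (dd M u) s := by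
      funext s; exact ih s
    rw [h3, wdg_add, wdg_sum, wdg_smul] at h1
    rw [Fin.sum_univ_succ]
    have h4 : ∀ k : Fin (m + 1), (-1 : K) ^ ((k.succ : Fin (m + 2)) : ℕ) *
        wdgs1 (m + 1) (k.succ.removeNth e) u t =
        - wdg (e 0) (fun s : Fin (p + m + 1) → B =>
          (-1) ^ (k : ℕ) * wdgs1 m (k.removeNth (Fin.tail e)) u s) t := by
      intro k
      rw [wdg_smul]
      simp only [wdgs1, removeNth_succ_zero, tail_removeNth_succ, Fin.val_succ, pow_succ]
      ring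
    rw [Finset.sum_congr rfl (fun k _ => h4 k), Finset.sum_neg_distrib, removeNth_zero_eq]
    simp only [Fin.val_zero, pow_zero, one_mul]
    have h5 : wdgs (m + 1 + 1) e (dd M u) t =
      wdg (e 0) (wdgs (m + 1) (Fin.tail e) (dd M u)) t := rfl
    rw [h5]
    linear_combination h1

end Pool.Agent.Work.MP_1233f5_ag.V
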