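import Pool.Agent.Work.MP_1233f5_ag.X.Basic

set_option autoImplicit false

namespace Pool.Agent.Work.MP_1233f5_ag.V

open Finset

namespace XBdAux

variable {K : Type} [Field K] {α : Type}

/-- the action of a permutation on tuples of sets -/
def mp (σ : Equiv.Perm α) {p : ℕ} (t : Fin p → Finset α) : Fin p → Finset α :=
  fun i => (t i).map σ.toEmbedding

theorem map_inj (σ : Equiv.Perm α) (a b : Finset α) :
    a.map σ.toEmbedding = b.map σ.toEmbedding ↔ a = b := Finset.map_inj

theorem mp_mul (σ τ : Equiv.Perm α) {p : ℕ} (t : Fin p → Finset α) :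
    mp τ (mp σ t) = mp (τ * σ) t := by
  funext i
  simp only [mp, Finset.map_map]
  rfl

theorem mp_removeNth (σ : Equiv.Perm α) {p : ℕ} (t : Fin (p + 1) → Finset α) (i : Fin (p + 1)) :
    i.removeNth (mp σ t) = mp σ (i.removeNth t) := rfl

theorem mp_cons (σ : Equiv.Perm α) {p : ℕ} (t : Fin p → Finset α) (b : Finset α) :
    mp σ (Fin.cons b t : Fin (p + 1) → Finset α) = Fin.cons (b.map σ.toEmbedding) (mp σ t) := by
  funext i
  refine Fin.cases ?_ (fun i => ?_) i
  · simp [mp]
  · simp [mp]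

variable [DecidableEq α]

theorem wdg_mp {p : ℕ} (σ : Equiv.Perm α) (b : Finset α) (c : (Fin p → Finset α) → K)
    (t : Fin (p + 1) → Finset α) :
    wdg (b.map σ.toEmbedding) c (mp σ t) = wdg b (fun s => c (mp σ s)) t := by
  simp only [wdg]
  refine Finset.sum_congr rfl fun i _ => ?_
  have h : mp σ t i = b.map σ.toEmbedding ↔ t i = b := map_inj σ _ _
  rw [mp_removeNth]
  by_cases hb : t i = b
  · rw [if_pos (h.2 hb), if_pos hb]
  · rw [if_neg (fun h' => hb (h.1 h')), if_neg hb]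

theorem wdgs1_mp {p : ℕ} (σ : Equiv.Perm α) (c : (Fin (p + 1) → Finset α) → K)
    (hc : ∀ s, c (mp σ s) = c s) : ∀ (m : ℕ) (e : Fin m → Finset α),
      (∀ k, (e k).map σ.toEmbedding = e k) → ∀ t : Fin (p + m + 1) → Finset α,
        wdgs1 m e c (mp σ t) = wdgs1 m e c t
  | 0, _, _, t => hc t
  | m + 1, e, he, t => by
    have ih := wdgs1_mp σ c hc m (Fin.tail e) (fun k => he _)
    have h1 := wdg_mp σ (e 0) (wdgs1 m (Fin.tail e) c) t
    rw [he 0] at h1
    have h2 : (fun s => wdgs1 m (Fin.tail e) c (mp σ s)) = wdgs1 m (Fin.tail e) c := funext ih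
    rw [h2] at h1
    exact h1

theorem vm_removeNth_aux {p d : ℕ} {P : Finset α} {s : Fin (p + 1) → Finset α} (i : Fin (p + 1))
    (h : vm d P p (i.removeNth s)) (hc : (s i).card = d) (hd : Disjoint (s i) P) :
    vm d (P ∪ s i) (p + 1) s := by
  have hs : ∀ j : Fin p, s (i.succAbove j) = i.removeNth s j := fun j => rfl
  refine ⟨fun j => ?_, fun j j' hjj => ?_⟩
  · rcases Fin.eq_self_or_eq_succAbove i j with rfl | ⟨k, rfl⟩
    · exact ⟨hc, Finset.subset_union_right⟩
    · rw [hs]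
      exact ⟨(h.1 k).1, (h.1 k).2.trans Finset.subset_union_left⟩
  · rcases Fin.eq_self_or_eq_succAbove i j with rfl | ⟨k, rfl⟩
    · rcases Fin.eq_self_or_eq_succAbove j j' with rfl | ⟨k', rfl⟩
      · exact absurd rfl hjj
      · rw [hs]
        exact hd.mono_right (h.1 k').2
    · rcases Fin.eq_self_or_eq_succAbove i j' with rfl | ⟨k', rfl⟩
      · rw [hs]
        exact (hd.mono_right (h.1 k).2).symm
      · rw [hs, hs]
        exact h.2 k k' (fun hk => hjj (by rw [hk]))

theorem rCh_wdg {p d : ℕ} {P b : Finset α} {c : (Fin p → Finset α) → K}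
    (h : rCh (vm d P) p c) (hc : b.card = d) (hd : Disjoint b P) :
    rCh (vm d (P ∪ b)) (p + 1) (wdg b c) := by
  refine ⟨h.1.wdg b, fun t ht => ?_⟩
  obtain ⟨i, _, hi⟩ := Finset.exists_ne_zero_of_sum_ne_zero ht
  by_cases hb : t i = b
  · rw [if_pos hb] at hi
    have h1 : vm d P p (i.removeNth t) := h.2 _ (right_ne_zero_of_mul hi)
    have h2 := vm_removeNth_aux i h1 (by rw [hb, hc]) (by rw [hb]; exact hd)
    rwa [hb] at h2
  · rw [if_neg hb] at hi
    exact absurd rfl hi

theorem biUnion_tail {m : ℕ} (e : Fin (m + 1) → Finset α) :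
    univ.biUnion e = univ.biUnion (Fin.tail e) ∪ e 0 := by
  ext a
  simp only [Finset.mem_biUnion, mem_univ, true_and, Finset.mem_union]
  constructor
  · rintro ⟨k, hk⟩
    revert hk
    refine Fin.cases ?_ (fun k => ?_) k
    · exact fun h => Or.inr h
    · exact fun h => Or.inl ⟨k, h⟩
  · rintro (⟨k, hk⟩ | h)
    · exact ⟨k.succ, hk⟩
    · exact ⟨0, h⟩

theorem disj_tail {m d : ℕ} {P R : Finset α} (e : Fin (m + 1) → Finset α)
    (he : vm d P (m + 1) e) (hR : ∀ k, Disjoint (e k) R) :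
    Disjoint (e 0) (R ∪ univ.biUnion (Fin.tail e)) := by
  rw [Finset.disjoint_union_right]
  refine ⟨hR 0, ?_⟩
  rw [Finset.disjoint_biUnion_right]
  intro k _
  exact he.2 0 k.succ (Fin.succ_ne_zero k).symm

theorem vm_tail {m d : ℕ} {P : Finset α} (e : Fin (m + 1) → Finset α)
    (he : vm d P (m + 1) e) : vm d P m (Fin.tail e) :=
  ⟨fun _ => he.1 _, fun _ _ h => he.2 _ _ (fun h' => h (Fin.succ_injective _ h'))⟩

theorem rCh_wdgs {p d : ℕ} {P R : Finset α} {c : (Fin p → Finset α) → K}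
    (h : rCh (vm d R) p c) : ∀ (m : ℕ) (e : Fin m → Finset α), vm d P m e →
      (∀ k, Disjoint (e k) R) → rCh (vm d (R ∪ univ.biUnion e)) (p + m) (wdgs m e c)
  | 0, e, _, _ => by
    have : R ∪ univ.biUnion e = R := by
      have h0 : (univ : Finset (Fin 0)) = ∅ := rfl
      rw [h0, Finset.biUnion_empty, Finset.union_empty]
    rw [this]
    exact h
  | m + 1, e, he, hR => by
    have ih := rCh_wdgs h m (Fin.tail e) (vm_tail e he) (fun k => hR _)
    have h1 := rCh_wdg ih (he.1 0).1 (disj_tail e he hR)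
    rw [Finset.union_assoc, ← biUnion_tail] at h1
    exact h1

theorem rCh_wdgs1 {p d : ℕ} {P R : Finset α} {c : (Fin (p + 1) → Finset α) → K}
    (h : rCh (vm d R) (p + 1) c) : ∀ (m : ℕ) (e : Fin m → Finset α), vm d P m e →
      (∀ k, Disjoint (e k) R) → rCh (vm d (R ∪ univ.biUnion e)) (p + m + 1) (wdgs1 m e c)
  | 0, e, _, _ => by
    have : R ∪ univ.biUnion e = R := by
      have h0 : (univ : Finset (Fin 0)) = ∅ := rfl
      rw [h0, Finset.biUnion_empty, Finset.union_empty]
    rw [this]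
    exact h
  | m + 1, e, he, hR => by
    have ih := rCh_wdgs1 h m (Fin.tail e) (vm_tail e he) (fun k => hR _)
    have h1 := rCh_wdg ih (he.1 0).1 (disj_tail e he hR)
    rw [Finset.union_assoc, ← biUnion_tail] at h1
    exact h1

theorem vm_mono {p d : ℕ} {P P' : Finset α} (h : P ⊆ P') {t : Fin p → Finset α}
    (ht : vm d P p t) : vm d P' p t :=
  ⟨fun i => ⟨(ht.1 i).1, (ht.1 i).2.trans h⟩, ht.2⟩

variable [Fintype α]

theorem AQ_dd (Q : Finset α) {p : ℕ} (c : (Fin (p + 1) → Finset α) → K)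
    (t : Fin p → Finset α) : AQ Q (dd univ c) t = dd univ (AQ Q c) t := by
  unfold AQ V.dd
  rw [Finset.sum_comm]
  refine Finset.sum_congr rfl fun σ _ => ?_
  rw [Finset.mul_sum, ← Equiv.sum_comp (Equiv.finsetCongr σ)]
  refine Finset.sum_congr rfl fun b _ => ?_
  have h : (fun i => ((Fin.cons b t : Fin (p + 1) → Finset α) i).map σ.toEmbedding) =
    Fin.cons (b.map σ.toEmbedding) (mp σ t) := mp_cons σ t b
  rw [h]
  rfl

theorem AQ_zero_of_inv [CharZero K] (Q : Finset α) {p : ℕ} (c : (Fin p → Finset α) → K)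
    (x y : α) (hxy : x ≠ y) (hx : x ∈ Q) (hy : y ∈ Q)
    (hc : ∀ t, c (mp (Equiv.swap x y) t) = c t) (t : Fin p → Finset α) : AQ Q c t = 0 := by
  have h1 : AQ Q c t = - AQ Q c t := by
    conv_lhs => unfold AQ
    unfold AQ
    rw [← Finset.sum_neg_distrib]
    refine Finset.sum_bij (fun σ _ => Equiv.swap x y * σ) ?_ ?_ ?_ ?_
    · intro σ hσ
      rw [Finset.mem_filter] at hσ ⊢
      refine ⟨mem_univ _, fun a ha => ?_⟩
      rw [Equiv.Perm.mul_apply, hσ.2 a ha]
      exact Equiv.swap_apply_of_ne_of_ne (fun h => ha (h ▸ hx)) (fun h => ha (h ▸ hy))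
    · intro σ _ σ' _ h
      exact mul_left_cancel h
    · intro σ hσ
      rw [Finset.mem_filter] at hσ
      refine ⟨Equiv.swap x y * σ, ?_, ?_⟩
      · rw [Finset.mem_filter]
        refine ⟨mem_univ _, fun a ha => ?_⟩
        rw [Equiv.Perm.mul_apply, hσ.2 a ha]
        exact Equiv.swap_apply_of_ne_of_ne (fun h => ha (h ▸ hx)) (fun h => ha (h ▸ hy))
      · rw [← mul_assoc, Equiv.swap_mul_self, one_mul]
    · intro σ _
      have h2 := hc (mp σ t)
      rw [mp_mul] at h2
      change _ = -(((Equiv.Perm.sign (Equiv.swap x y * σ) : ℤ) : K) * c (mp _ t))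
      rw [h2, Equiv.Perm.sign_mul, Equiv.Perm.sign_swap hxy]
      change ((Equiv.Perm.sign σ : ℤ) : K) * c (mp σ t) = _
      push_cast
      ring
  have h2 : (2 : K) * AQ Q c t = 0 := by linear_combination h1
  rcases mul_eq_zero.mp h2 with h4 | h4
  · exact absurd h4 two_ne_zero
  · exact h4

theorem Alt_AQ (Q : Finset α) {p : ℕ} {c : (Fin p → Finset α) → K} (h : Alt p c) :
    Alt p (AQ Q c) := by
  intro π t
  unfold AQ
  rw [Finset.mul_sum]
  refine Finset.sum_congr rfl fun σ _ => ?_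
  have h1 := h π (fun i => (t i).map σ.toEmbedding)
  have h2 : (fun i => ((t ∘ π) i).map σ.toEmbedding) =
      (fun i => (t i).map σ.toEmbedding) ∘ π := rfl
  rw [h2, h1]
  ring

theorem vm_of_mp {p d : ℕ} (σ : Equiv.Perm α) {t : Fin p → Finset α}
    (h : vm d (univ : Finset α) p (mp σ t)) : vm d (univ : Finset α) p t := by
  refine ⟨fun i => ⟨?_, Finset.subset_univ _⟩, fun i j hij => ?_⟩
  · have := (h.1 i).1
    simpa [mp] using this
  · have := h.2 i j hij
    simpa [mp, Finset.disjoint_map] using this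

theorem rCh_AQ (Q : Finset α) {p d : ℕ} {c : (Fin p → Finset α) → K}
    (h : rCh (vm d univ) p c) : rCh (vm d univ) p (AQ Q c) := by
  refine ⟨Alt_AQ Q h.1, fun t ht => ?_⟩
  obtain ⟨σ, _, hσ⟩ := Finset.exists_ne_zero_of_sum_ne_zero ht
  exact vm_of_mp σ (h.2 _ (right_ne_zero_of_mul hσ))

theorem rCh_univ {p d : ℕ} {P : Finset α} {c : (Fin p → Finset α) → K}
    (h : rCh (vm d P) p c) : rCh (vm d univ) p c :=
  ⟨h.1, fun t ht => vm_mono (Finset.subset_univ P) (h.2 t ht)⟩

theorem AQ_smul (Q : Finset α) {p : ℕ} (a : K) (c : (Fin p → Finset α) → K)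
    (t : Fin p → Finset α) : AQ Q (fun s => a * c s) t = a * AQ Q c t := by
  unfold AQ
  rw [Finset.mul_sum]
  exact Finset.sum_congr rfl fun σ _ => by ring

theorem AQ_add (Q : Finset α) {p : ℕ} (c c' : (Fin p → Finset α) → K)
    (t : Fin p → Finset α) : AQ Q (fun s => c s + c' s) t = AQ Q c t + AQ Q c' t := by
  unfold AQ
  rw [← Finset.sum_add_distrib]
  exact Finset.sum_congr rfl fun σ _ => by ring

theorem AQ_sum {ι : Type*} (S : Finset ι) (Q : Finset α) {p : ℕ}
    (c : ι → (Fin p → Finset α) → K) (t : Fin p → Finset α) :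
    AQ Q (fun s => ∑ k ∈ S, c k s) t = ∑ k ∈ S, AQ Q (c k) t := by
  unfold AQ
  rw [Finset.sum_comm]
  exact Finset.sum_congr rfl fun σ _ => by rw [Finset.mul_sum]

theorem map_swap_eq {b : Finset α} {x y : α} (hx : x ∉ b) (hy : y ∉ b) :
    b.map (Equiv.swap x y).toEmbedding = b := by
  ext a
  simp only [Finset.mem_map_equiv, Equiv.symm_swap]
  by_cases h1 : a = x
  · subst h1
    rw [Equiv.swap_apply_left]
    exact ⟨fun h => absurd h hy, fun h => absurd h hx⟩
  · by_cases h2 : a = y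
    · subst h2
      rw [Equiv.swap_apply_right]
      exact ⟨fun h => absurd h hx, fun h => absurd h hy⟩
    · rw [Equiv.swap_apply_of_ne_of_ne h1 h2]

theorem inv_of_support {p d : ℕ} {R : Finset α} {c : (Fin p → Finset α) → K}
    (h : rCh (vm d R) p c) {x y : α} (hx : x ∉ R) (hy : y ∉ R) (t : Fin p → Finset α) :
    c (mp (Equiv.swap x y) t) = c t := by
  by_cases h1 : c t = 0
  · by_cases h2 : c (mp (Equiv.swap x y) t) = 0
    · rw [h1, h2]
    · have h3 := h.2 _ h2
      have h4 : mp (Equiv.swap x y) (mp (Equiv.swap x y) t) = mp (Equiv.swap x y) t := by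
        funext i
        exact map_swap_eq (fun hh => hx ((h3.1 i).2 hh)) (fun hh => hy ((h3.1 i).2 hh))
      rw [mp_mul, Equiv.swap_mul_self] at h4
      have h5 : mp (1 : Equiv.Perm α) t = t := by
        funext i
        ext a
        simp only [mp, Finset.mem_map_equiv]
        rfl
      rw [h5] at h4
      rw [← h4]
  · have h3 := h.2 _ h1
    have h4 : mp (Equiv.swap x y) t = t := by
      funext i
      exact map_swap_eq (fun hh => hx ((h3.1 i).2 hh)) (fun hh => hy ((h3.1 i).2 hh))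
    rw [h4]

end XBdAux

open XBdAux in
theorem pr_XBd : S_XBd := by
  intro K _ _ α _ _ d m p Q hm hQ e he u hu
  obtain ⟨m, rfl⟩ : ∃ m', m = m' + 1 := ⟨m - 1, by omega⟩
  obtain ⟨huc, η, hη, hdη⟩ := hu
  have hRe : ∀ k, Disjoint (e k) (RQ Q e) := by
    intro k
    rw [Finset.disjoint_left]
    intro a ha hR
    simp only [RQ, Finset.mem_sdiff, mem_univ, true_and, Finset.mem_biUnion, not_exists] at hR
    exact hR.2 k ha
  -- `u = dd η`
  have hu' : u = dd univ η := by
    funext t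
    by_cases ht : vm d (RQ Q e) p t
    · exact (hdη t ht).symm
    · have h1 : u t = 0 := by
        by_contra h
        exact ht (huc.2 t h)
      rw [h1]
      symm
      unfold dd
      refine Finset.sum_eq_zero fun b _ => ?_
      by_contra h
      have h2 := hη.2 _ h
      refine ht ⟨fun i => ?_, fun i j hij => ?_⟩
      · have := h2.1 i.succ
        simpa using this
      · have := h2.2 i.succ j.succ (fun h' => hij (Fin.succ_injective _ h'))
        simpa using this
  have hW : ∀ t : Fin (p + m + 1) → Finset α, dd univ (wdgs1 (m + 1) e η) t =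
      ∑ k : Fin (m + 1), (-1) ^ (k : ℕ) * wdgs1 m (k.removeNth e) η t +
        (-1) ^ (m + 1) * wdgs (m + 1) e (dd univ η) t :=
    fun t => dd_wdgs1 univ η m e (fun k => mem_univ _) t
  have hkill : ∀ (k : Fin (m + 1)) (t : Fin (p + m + 1) → Finset α),
      AQ Q (wdgs1 m (k.removeNth e) η) t = 0 := by
    intro k t
    have hcard : 1 < (Q \ univ.biUnion (k.removeNth e)).card := by
      have h1 : (Q ∩ univ.biUnion (k.removeNth e)).card ≤ m := by
        rw [Finset.inter_biUnion]
        refine Finset.card_biUnion_le.trans ?_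
        have : ∀ j : Fin m, (Q ∩ k.removeNth e j).card = 1 := by
          intro j
          rw [Finset.inter_comm]
          exact he.2 _
        rw [Finset.sum_congr rfl (fun j _ => this j)]
        simp
      have h2 := Finset.card_sdiff_add_card_inter Q (univ.biUnion (k.removeNth e))
      omega
    obtain ⟨x, hx, y, hy, hxy⟩ := Finset.one_lt_card.1 hcard
    rw [Finset.mem_sdiff, Finset.mem_biUnion] at hx hy
    have hxR : x ∉ RQ Q e := by
      intro h
      simp only [RQ, Finset.mem_sdiff, mem_univ, true_and] at h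
      exact h.1 hx.1
    have hyR : y ∉ RQ Q e := by
      intro h
      simp only [RQ, Finset.mem_sdiff, mem_univ, true_and] at h
      exact h.1 hy.1
    refine AQ_zero_of_inv Q _ x y hxy hx.1 hy.1 (fun s => ?_) t
    exact wdgs1_mp (Equiv.swap x y) η (fun s => inv_of_support hη hxR hyR s) m (k.removeNth e)
      (fun j => map_swap_eq (fun h => hx.2 ⟨j, mem_univ _, h⟩)
        (fun h => hy.2 ⟨j, mem_univ _, h⟩)) s
  have hA : ∀ t : Fin (p + m + 1) → Finset α,
      dd univ (AQ Q (wdgs1 (m + 1) e η)) t = (-1) ^ (m + 1) * AQ Q (wdgs (m + 1) e u) t := by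
    intro t
    have h0 := AQ_dd Q (wdgs1 (m + 1) e η) t
    rw [← h0]
    have h1 : dd univ (wdgs1 (m + 1) e η) = fun t : Fin (p + m + 1) → Finset α =>
        ∑ k : Fin (m + 1), (-1) ^ (k : ℕ) * wdgs1 m (k.removeNth e) η t +
        (-1) ^ (m + 1) * wdgs (m + 1) e u t := by
      funext s
      rw [hu']
      exact hW s
    rw [h1]
    refine (AQ_add (p := p + m + 1) Q (fun t => ∑ k : Fin (m + 1), (-1) ^ (k : ℕ) *
      wdgs1 m (k.removeNth e) η t) (fun t => (-1) ^ (m + 1) * wdgs (m + 1) e u t) t).trans ?_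
    rw [AQ_sum, Finset.sum_eq_zero fun k _ => by rw [AQ_smul, hkill, mul_zero], zero_add]
    exact AQ_smul (p := p + m + 1) Q _ _ t
  have hc1 : rCh (vm d univ) (p + (m + 1)) (AQ Q (wdgs (m + 1) e u)) :=
    rCh_AQ Q (rCh_univ (rCh_wdgs huc (m + 1) e he.1 hRe))
  have hc2 : rCh (vm d univ) (p + (m + 1) + 1) (AQ Q (wdgs1 (m + 1) e η)) :=
    rCh_AQ Q (rCh_univ (rCh_wdgs1 hη (m + 1) e he.1 hRe))
  refine ⟨hc1, fun t => (-1) ^ (m + 1) * AQ Q (wdgs1 (m + 1) e η) t, ⟨hc2.1.smul _, ?_⟩, ?_⟩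
  · intro t ht
    exact hc2.2 t (right_ne_zero_of_mul ht)
  · intro t _
    rw [dd_smul]
    have h1 := hA t
    change (-1) ^ (m + 1) * dd univ (AQ Q (wdgs1 (m + 1) e η)) t = _
    rw [h1, ← mul_assoc, ← pow_add, ← two_mul, pow_mul]
    simp

end Pool.Agent.Work.MP_1233f5_ag.V
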