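import Pool.Agent.Work.MP_1233f5_ag.X.Basic

set_option autoImplicit false

namespace Pool.Agent.Work.MP_1233f5_ag.V

open Finset

namespace XRedAux

variable {K : Type} [Field K] {α : Type} [Fintype α] [DecidableEq α]

/-- the translated tuple. -/
def tr (σ : Equiv.Perm α) {p : ℕ} (t : Fin p → Finset α) : Fin p → Finset α :=
  fun i => (t i).map σ.toEmbedding

omit [Fintype α] in
theorem map_inv_map (σ : Equiv.Perm α) (s : Finset α) :
    (s.map σ⁻¹.toEmbedding).map σ.toEmbedding = s := by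
  ext a
  simp only [Finset.mem_map, Equiv.coe_toEmbedding]
  constructor
  · rintro ⟨b, ⟨c, hc, rfl⟩, rfl⟩
    have : σ (σ⁻¹ c) = c := Equiv.apply_symm_apply σ c
    rwa [this]
  · intro ha
    exact ⟨σ⁻¹ a, ⟨a, ha, rfl⟩, Equiv.apply_symm_apply σ a⟩

omit [Fintype α] in
theorem map_map_inv (σ : Equiv.Perm α) (s : Finset α) :
    (s.map σ.toEmbedding).map σ⁻¹.toEmbedding = s := by
  ext a
  simp only [Finset.mem_map, Equiv.coe_toEmbedding]
  constructor
  · rintro ⟨b, ⟨c, hc, rfl⟩, rfl⟩
    have : σ⁻¹ (σ c) = c := Equiv.symm_apply_apply σ c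
    rwa [this]
  · intro ha
    exact ⟨σ a, ⟨a, ha, rfl⟩, Equiv.symm_apply_apply σ a⟩

omit [Fintype α] in
theorem map_eq_iff (σ : Equiv.Perm α) (s s' : Finset α) :
    s.map σ.toEmbedding = s' ↔ s = s'.map σ⁻¹.toEmbedding := by
  constructor
  · intro h; rw [← h, map_map_inv]
  · intro h; rw [h, map_inv_map]

omit [Fintype α] in
theorem tr_removeNth (σ : Equiv.Perm α) {p : ℕ} (t : Fin (p + 1) → Finset α) (i : Fin (p + 1)) :
    i.removeNth (tr σ t) = tr σ (i.removeNth t) := by
  funext j; simp [Fin.removeNth, tr]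

omit [Fintype α] in
theorem wdg_tr (σ : Equiv.Perm α) (b : Finset α) {p : ℕ} (c : (Fin p → Finset α) → K)
    (t : Fin (p + 1) → Finset α) :
    wdg b c (tr σ t) = wdg (b.map σ⁻¹.toEmbedding) (fun s => c (tr σ s)) t := by
  simp only [wdg]
  refine Finset.sum_congr rfl fun i _ => ?_
  rw [tr_removeNth]
  have : (tr σ t i = b) ↔ (t i = b.map σ⁻¹.toEmbedding) := map_eq_iff σ _ _
  by_cases h : t i = b.map σ⁻¹.toEmbedding
  · rw [if_pos h, if_pos (this.mpr h)]
  · rw [if_neg h, if_neg (fun h' => h (this.mp h'))]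

omit [Fintype α] in
theorem wdgs_tr (σ : Equiv.Perm α) {p : ℕ} (c : (Fin p → Finset α) → K) :
    ∀ (m : ℕ) (e : Fin m → Finset α) (t : Fin (p + m) → Finset α),
    wdgs m e c (tr σ t) = wdgs m (fun k => (e k).map σ⁻¹.toEmbedding) (fun s => c (tr σ s)) t
  | 0, _, _ => rfl
  | m + 1, e, t => by
    have h1 : wdgs (m + 1) e c (tr σ t) = wdg (e 0) (wdgs m (Fin.tail e) c) (tr σ t) := rfl
    rw [h1, wdg_tr]
    have h2 : (fun s => wdgs m (Fin.tail e) c (tr σ s)) =
        wdgs m (fun k => (Fin.tail e k).map σ⁻¹.toEmbedding) (fun s => c (tr σ s)) := by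
      funext s; exact wdgs_tr σ c m (Fin.tail e) s
    rw [h2]
    rfl

omit [Fintype α] in
theorem tr_cons (σ : Equiv.Perm α) {p : ℕ} (b : Finset α) (t : Fin p → Finset α) :
    (Fin.cons (b.map σ.toEmbedding) (tr σ t) : Fin (p + 1) → Finset α) =
      tr σ (Fin.cons b t : Fin (p + 1) → Finset α) := by
  funext i
  refine Fin.cases ?_ (fun i => ?_) i
  · simp [tr]
  · simp [tr]

/-- the equivalence of subsets induced by a permutation. -/
def mapE (σ : Equiv.Perm α) : Finset α ≃ Finset α where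
  toFun s := s.map σ.toEmbedding
  invFun s := s.map σ⁻¹.toEmbedding
  left_inv s := map_map_inv σ s
  right_inv s := map_inv_map σ s

theorem dd_tr (σ : Equiv.Perm α) {p : ℕ} (g : (Fin (p + 1) → Finset α) → K)
    (t : Fin p → Finset α) : dd univ g (tr σ t) = dd univ (fun s => g (tr σ s)) t := by
  simp only [dd]
  rw [← Equiv.sum_comp (mapE σ)]
  refine Finset.sum_congr rfl fun b _ => ?_
  show g (Fin.cons (b.map σ.toEmbedding) (tr σ t)) = _
  rw [tr_cons]

theorem tr_tr (σ τ : Equiv.Perm α) {p : ℕ} (t : Fin p → Finset α) :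
    tr τ (tr σ t) = tr (τ * σ) t := by
  funext i
  simp only [tr, Finset.map_map]
  rfl

/-- the group. -/
def G (Q : Finset α) : Finset (Equiv.Perm α) :=
  univ.filter (fun σ : Equiv.Perm α => ∀ a, a ∉ Q → σ a = a)

theorem AQ_eq (Q : Finset α) {p : ℕ} (c : (Fin p → Finset α) → K) (t : Fin p → Finset α) :
    AQ Q c t = ∑ σ ∈ G Q, ((Equiv.Perm.sign σ : ℤ) : K) * c (tr σ t) := rfl

theorem sgn_sq (σ : Equiv.Perm α) :
    ((Equiv.Perm.sign σ : ℤ) : K) * ((Equiv.Perm.sign σ : ℤ) : K) = 1 := by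
  rw [← Int.cast_mul, ← Units.val_mul, Int.units_mul_self]; simp

theorem AQ_anti (Q : Finset α) {p : ℕ} (z : (Fin p → Finset α) → K) (hz : AntiF Q z)
    (t : Fin p → Finset α) : AQ Q z t = ((G Q).card : K) * z t := by
  rw [AQ_eq, Finset.cast_card, Finset.sum_mul]
  refine Finset.sum_congr rfl fun σ hσ => ?_
  have h1 : z (tr σ t) = ((Equiv.Perm.sign σ : ℤ) : K) * z t :=
    hz σ (Finset.mem_filter.mp hσ).2 t
  rw [h1, ← mul_assoc, sgn_sq]

theorem AQ_dd (Q : Finset α) {p : ℕ} (g : (Fin (p + 1) → Finset α) → K)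
    (t : Fin p → Finset α) : AQ Q (dd univ g) t = dd univ (AQ Q g) t := by
  rw [AQ_eq]
  simp only [dd, AQ_eq]
  rw [Finset.sum_comm]
  refine Finset.sum_congr rfl fun σ _ => ?_
  have := dd_tr σ g t
  simp only [dd] at this
  rw [this, Finset.mul_sum]

theorem vm_tr (σ : Equiv.Perm α) (d : ℕ) {p : ℕ} (t : Fin p → Finset α) :
    vm d univ p (tr σ t) ↔ vm d univ p t := by
  constructor
  · rintro ⟨h1, h2⟩
    refine ⟨fun i => ⟨?_, subset_univ _⟩, fun i j hij => ?_⟩
    · rw [← (h1 i).1]; simp [tr]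
    · have := h2 i j hij
      simp only [tr] at this
      rwa [Finset.disjoint_map] at this
  · rintro ⟨h1, h2⟩
    refine ⟨fun i => ⟨?_, subset_univ _⟩, fun i j hij => ?_⟩
    · rw [← (h1 i).1]; simp [tr]
    · have := h2 i j hij
      simp only [tr]
      rwa [Finset.disjoint_map]

theorem rCh_AQ (Q : Finset α) (d : ℕ) {p : ℕ} (c : (Fin p → Finset α) → K)
    (h : rCh (vm d univ) p c) : rCh (vm d univ) p (AQ Q c) := by
  refine ⟨?_, ?_⟩
  · have : AQ Q c = fun t => ∑ σ ∈ G Q, ((Equiv.Perm.sign σ : ℤ) : K) * c (tr σ t) := rfl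
    rw [this]
    refine Alt.sum _ _ fun σ _ => Alt.smul _ ?_
    intro π t
    exact h.1 π (tr σ t)
  · intro t ht
    rw [AQ_eq] at ht
    obtain ⟨σ, _, hσ⟩ := Finset.exists_ne_zero_of_sum_ne_zero ht
    exact (vm_tr σ d t).mp (h.2 _ (right_ne_zero_of_mul hσ))

theorem AQ_tr (Q : Finset α) {p : ℕ} (c : (Fin p → Finset α) → K) (τ : Equiv.Perm α)
    (hτ : ∀ a, a ∉ Q → τ a = a) (t : Fin p → Finset α) :
    AQ Q (fun s => c (tr τ s)) t = ((Equiv.Perm.sign τ : ℤ) : K) * AQ Q c t := by
  rw [AQ_eq, AQ_eq, Finset.mul_sum]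
  refine Finset.sum_bij (fun σ _ => τ * σ) ?_ ?_ ?_ ?_
  · intro σ hσ
    simp only [G, mem_filter, mem_univ, true_and] at hσ ⊢
    intro a ha
    rw [Equiv.Perm.mul_apply, hσ a ha, hτ a ha]
  · intro σ _ σ' _ h; exact mul_left_cancel h
  · intro ρ hρ
    refine ⟨τ⁻¹ * ρ, ?_, by simp⟩
    simp only [G, mem_filter, mem_univ, true_and] at hρ ⊢
    intro a ha
    rw [Equiv.Perm.mul_apply, hρ a ha]
    exact Equiv.Perm.inv_eq_iff_eq.mpr (hτ a ha).symm
  · intro σ _
    rw [tr_tr, Equiv.Perm.sign_mul]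
    have := sgn_sq (K := K) τ
    push_cast
    linear_combination (-(((Equiv.Perm.sign σ : ℤ) : K) * c (tr (τ * σ) t))) * this

/-- extension of an injection inside `Q` to a permutation. -/
theorem exists_perm (Q : Finset α) {m : ℕ} (x y : Fin m → α) (hx : Function.Injective x)
    (hy : Function.Injective y) (hxQ : ∀ k, x k ∈ Q) (hyQ : ∀ k, y k ∈ Q) :
    ∃ τ : Equiv.Perm α, (∀ a, a ∉ Q → τ a = a) ∧ ∀ k, τ (x k) = y k := by
  classical
  let x' : Fin m → {a // a ∈ Q} := fun k => ⟨x k, hxQ k⟩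
  let y' : Fin m → {a // a ∈ Q} := fun k => ⟨y k, hyQ k⟩
  have hx' : Function.Injective x' := fun a b h => hx (congrArg Subtype.val h)
  have hy' : Function.Injective y' := fun a b h => hy (congrArg Subtype.val h)
  let e : {a : {a // a ∈ Q} // a ∈ Set.range x'} ≃ {a : {a // a ∈ Q} // a ∈ Set.range y'} :=
    (Equiv.ofInjective x' hx').symm.trans (Equiv.ofInjective y' hy')
  let σ : Equiv.Perm {a // a ∈ Q} := e.extendSubtype
  refine ⟨Equiv.Perm.ofSubtype σ, ?_, ?_⟩
  · intro a ha
    exact Equiv.Perm.ofSubtype_apply_of_not_mem σ ha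
  · intro k
    rw [Equiv.Perm.ofSubtype_apply_of_mem σ (hxQ k)]
    have h1 : σ (x' k) = y' k := by
      have := Equiv.extendSubtype_apply_of_mem e (x' k) ⟨k, rfl⟩
      rw [this]
      show ((Equiv.ofInjective y' hy') ((Equiv.ofInjective x' hx').symm ⟨x' k, ⟨k, rfl⟩⟩)).1 = y' k
      have h2 : (Equiv.ofInjective x' hx').symm ⟨x' k, ⟨k, rfl⟩⟩ = k := by
        rw [Equiv.symm_apply_eq]; rfl
      rw [h2]; rfl
    exact congrArg Subtype.val h1

theorem IsBd_zero (d : ℕ) (p : ℕ) : IsBd (K := K) d (univ : Finset α) p (fun _ => 0) := by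
  refine ⟨⟨Alt.zero, fun t h => absurd rfl h⟩, fun _ => 0, ⟨Alt.zero, fun t h => absurd rfl h⟩, ?_⟩
  intro t _
  simp [dd]

theorem AQ_zero (Q : Finset α) {p : ℕ} : AQ (K := K) Q (fun _ : Fin p → Finset α => 0) =
    fun _ => 0 := by
  funext t; rw [AQ_eq]; simp

theorem IsBd_smul (d : ℕ) {p : ℕ} (a : K) (c : (Fin p → Finset α) → K)
    (h : IsBd d (univ : Finset α) p c) : IsBd d (univ : Finset α) p (fun t => a * c t) := by
  obtain ⟨h1, g, h2, h3⟩ := h
  refine ⟨⟨h1.1.smul a, fun t ht => h1.2 t (right_ne_zero_of_mul ht)⟩, fun t => a * g t,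
    ⟨h2.1.smul a, fun t ht => h2.2 t (right_ne_zero_of_mul ht)⟩, ?_⟩
  intro t ht
  rw [dd_smul]
  show a * dd univ g t = a * c t
  rw [h3 t ht]

end XRedAux

open XRedAux in
theorem pr_XRed (hXSpan : S_XSpan) : S_XRed := by
  intro K _ _ α _ _ d m p s Q q hd hq hQq hcard hvan hE0 z hz hAnti
  have hQcard : Q.card = m + 1 := by
    have : Q = univ.map ⟨q, hq⟩ := by
      ext a; simp [hQq a]
    rw [this]; simp
  obtain ⟨g, u, hg, hu, hzt⟩ := hXSpan K α d m p s Q hd hQcard hcard hvan z hz hAnti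
  have hpieces : ∀ e : Fin m → Finset α, IsBd (K := K) d univ (p + m) (AQ Q (wdgs m e (u e))) := by
    intro e
    rcases hu e with ⟨hEQ, hCy⟩ | h0
    · obtain ⟨hvm, h1⟩ := hEQ
      choose x hx using fun k => Finset.card_eq_one.mp (h1 k)
      have hxe : ∀ k, x k ∈ e k ∧ x k ∈ Q := by
        intro k
        have : x k ∈ e k ∩ Q := by rw [hx k]; exact Finset.mem_singleton_self _
        exact ⟨(Finset.mem_inter.mp this).1, (Finset.mem_inter.mp this).2⟩
      have hxinj : Function.Injective x := by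
        intro k k' hkk
        by_contra hne
        have hdis := hvm.2 k k' hne
        exact (Finset.disjoint_left.mp hdis) (hxe k).1 (hkk ▸ (hxe k').1)
      obtain ⟨τ, hτ1, hτ2⟩ := exists_perm Q x (fun k => q k.castSucc) hxinj
        (fun a b h => Fin.castSucc_injective _ (hq h)) (fun k => (hxe k).2)
        (fun k => (hQq _).mpr ⟨_, rfl⟩)
      set f : Fin m → Finset α := fun k => e k \ Q with hf
      have hfe : ∀ k, e k = insert (x k) (f k) := by
        intro k
        ext a
        simp only [hf, Finset.mem_insert, Finset.mem_sdiff]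
        constructor
        · intro ha
          by_cases haQ : a ∈ Q
          · left
            have : a ∈ e k ∩ Q := Finset.mem_inter.mpr ⟨ha, haQ⟩
            rw [hx k] at this
            exact Finset.mem_singleton.mp this
          · right; exact ⟨ha, haQ⟩
        · rintro (rfl | ⟨ha, _⟩)
          · exact (hxe k).1
          · exact ha
      have hfix : ∀ A : Finset α, (∀ a ∈ A, a ∉ Q) → A.map τ.toEmbedding = A := by
        intro A hA
        ext a
        simp only [Finset.mem_map, Equiv.coe_toEmbedding]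
        constructor
        · rintro ⟨b, hb, rfl⟩
          rw [hτ1 b (hA b hb)]; exact hb
        · intro ha; exact ⟨a, ha, hτ1 a (hA a ha)⟩
      have hmapf : ∀ k, (f k).map τ.toEmbedding = f k := by
        intro k
        exact hfix _ (fun a ha => (Finset.mem_sdiff.mp ha).2)
      have hmape : ∀ k, insert (q k.castSucc) (f k) = (e k).map τ.toEmbedding := by
        intro k
        rw [hfe k, Finset.map_insert, hmapf k]
        congr 1
        exact (hτ2 k).symm
      have hRQ : RQ Q f = RQ Q e := by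
        ext a
        simp only [RQ, hf, Finset.mem_sdiff, Finset.mem_univ, true_and, Finset.mem_biUnion]
        constructor
        · rintro ⟨haQ, h⟩
          exact ⟨haQ, fun ⟨k, hk⟩ => h ⟨k, hk, haQ⟩⟩
        · rintro ⟨haQ, h⟩
          exact ⟨haQ, fun ⟨k, hk, _⟩ => h ⟨k, hk⟩⟩
      have hRQQ : ∀ a ∈ RQ Q e, a ∉ Q := by
        intro a ha
        simp only [RQ, Finset.mem_sdiff] at ha
        exact ha.1.2
      have hutr : ∀ t : Fin p → Finset α, u e (tr τ t) = u e t := by
        intro t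
        by_cases h : u e (tr τ t) = 0
        · by_cases h' : u e t = 0
          · rw [h, h']
          · have hvt := hCy.1.2 t h'
            have : tr τ t = t := by
              funext i
              exact hfix _ (fun a ha => hRQQ a ((hvt.1 i).2 ha))
            rw [this]
        · have hvt := hCy.1.2 _ h
          have : tr τ t = t := by
            funext i
            have hi : ∀ a ∈ t i, a ∉ Q := by
              intro a ha haQ
              have h1 : τ a ∈ tr τ t i := by
                simp only [tr, Finset.mem_map, Equiv.coe_toEmbedding]; exact ⟨a, ha, rfl⟩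
              have h2 : τ a ∉ Q := hRQQ _ ((hvt.1 i).2 h1)
              have h3 : τ (τ a) = τ a := hτ1 _ h2
              have h4 : τ a = a := τ.injective h3
              rw [h4] at h2
              exact h2 haQ
            exact hfix _ hi
          rw [this]
      have hwd : (fun t => wdgs m (fun k => insert (q k.castSucc) (f k)) (u e) (tr τ t)) =
          wdgs m e (u e) := by
        funext t
        rw [wdgs_tr]
        have h1 : (fun k => (insert (q k.castSucc) (f k)).map τ⁻¹.toEmbedding) = e := by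
          funext k; rw [hmape k, map_map_inv]
        have h2 : (fun s => u e (tr τ s)) = u e := by funext s; exact hutr s
        rw [h1, h2]
      have hbd : IsBd (K := K) d univ (p + m) (E0 Q q f (u e)) := by
        apply hE0
        · refine ⟨fun k => ⟨?_, ?_⟩, fun i j hij => ?_⟩
          · have hk := (hvm.1 k).1
            rw [hfe k, Finset.card_insert_of_notMem (by
              simp only [hf, Finset.mem_sdiff, not_and, not_not]; intro _; exact (hxe k).2)] at hk
            omega
          · intro a ha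
            exact Finset.mem_sdiff.mpr ⟨Finset.mem_univ _, (Finset.mem_sdiff.mp ha).2⟩
          · exact Finset.disjoint_of_subset_left Finset.sdiff_subset
              (Finset.disjoint_of_subset_right Finset.sdiff_subset (hvm.2 i j hij))
        · rw [hRQ]; exact hCy
      have hfin : AQ Q (wdgs m e (u e)) =
          fun t => ((Equiv.Perm.sign τ : ℤ) : K) * E0 Q q f (u e) t := by
        funext t
        rw [← hwd]
        exact AQ_tr Q _ τ hτ1 t
      rw [hfin]
      exact IsBd_smul d _ _ hbd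
    · rw [h0, wdgs_zero, AQ_zero]
      exact IsBd_zero d (p + m)
  choose hch G' hG'1 hG'2 using hpieces
  have hG : ((G Q).card : K) ≠ 0 := by
    rw [Nat.cast_ne_zero, Finset.card_ne_zero]
    exact ⟨1, by simp [G]⟩
  refine ⟨hz.1, fun t => ((G Q).card : K)⁻¹ * (AQ Q g t + ∑ e, G' e t), ?_, ?_⟩
  · have hA := rCh_AQ Q d g hg
    refine ⟨Alt.smul _ (Alt.add hA.1 (Alt.sum _ _ fun e _ => (hG'1 e).1)), ?_⟩
    intro t ht
    have h1 := right_ne_zero_of_mul ht
    by_cases h2 : AQ Q g t = 0
    · rw [h2, zero_add] at h1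
      obtain ⟨e, _, he⟩ := Finset.exists_ne_zero_of_sum_ne_zero h1
      exact (hG'1 e).2 t he
    · exact hA.2 t h2
  · intro t ht
    have h1 : dd univ (fun t => ((G Q).card : K)⁻¹ * (AQ Q g t + ∑ e, G' e t)) t =
        ((G Q).card : K)⁻¹ * (dd univ (AQ Q g) t + ∑ e, dd univ (G' e) t) := by
      rw [dd_smul]
      congr 1
      simp only [dd]
      rw [Finset.sum_add_distrib, Finset.sum_comm]
    rw [h1, ← AQ_dd]
    have h2 : ∑ e, dd univ (G' e) t = ∑ e, AQ Q (wdgs m e (u e)) t :=
      Finset.sum_congr rfl fun e _ => hG'2 e t ht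
    rw [h2]
    have h3 : AQ Q z t = AQ Q (dd univ g) t + ∑ e, AQ Q (wdgs m e (u e)) t := by
      simp only [AQ_eq]
      rw [Finset.sum_comm, ← Finset.sum_add_distrib]
      refine Finset.sum_congr rfl fun σ _ => ?_
      rw [hzt (tr σ t) ((vm_tr σ d t).mpr ht), mul_add, Finset.mul_sum]
    rw [← h3, AQ_anti Q z hAnti]
    field_simp

end Pool.Agent.Work.MP_1233f5_ag.V
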