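import Pool.Agent.Work.MP_1233f5_ag.V.Stmts

/-! MP_1233f5_ag, block X (captain helper98): the extremal step at `T = 2 d - 1`, `d = r + 1`.
Result: `ML K (r+1) (2r+1) (r+3)` for `r ≥ 3`; with the base block this gives the
Ottaviani-Paoletti conjecture for quartics. -/

set_option autoImplicit false

namespace Pool.Agent.Work.MP_1233f5_ag.V

open Finset

section defs
variable {K : Type} [Field K] {α : Type}

/-- cycles supported on matchings of `P`. -/
def IsCy [Fintype α] [DecidableEq α] (d : ℕ) (P : Finset α) (p : ℕ)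
    (c : (Fin p → Finset α) → K) : Prop :=
  rCh (vm d P) p c ∧ rcyc univ (vm d P) p c

/-- boundaries of chains supported on matchings of `P`. -/
def IsBd [Fintype α] [DecidableEq α] (d : ℕ) (P : Finset α) (p : ℕ)
    (c : (Fin p → Finset α) → K) : Prop :=
  rCh (vm d P) p c ∧ ∃ g : (Fin (p + 1) → Finset α) → K, rCh (vm d P) (p + 1) g ∧
    ∀ t, vm d P p t → dd univ g t = c t

/-- antisymmetric under the permutations moving only points of `Q`. -/
def AntiF [Fintype α] [DecidableEq α] (Q : Finset α) {p : ℕ} (c : (Fin p → Finset α) → K) :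
    Prop :=
  ∀ σ : Equiv.Perm α, (∀ a, a ∉ Q → σ a = a) → ∀ t : Fin p → Finset α,
    c (fun i => (t i).map σ.toEmbedding) = ((Equiv.Perm.sign σ : ℤ) : K) * c t

/-- symmetric under the permutations moving only points of `X`. -/
def InvS (X : Finset α) {p : ℕ} (c : (Fin p → Finset α) → K) : Prop :=
  ∀ σ : Equiv.Perm α, (∀ a, a ∉ X → σ a = a) → ∀ t : Fin p → Finset α,
    c (fun i => (t i).map σ.toEmbedding) = c t

/-- antisymmetrization over the permutations moving only points of `Q`. -/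
def AQ [Fintype α] [DecidableEq α] (Q : Finset α) {p : ℕ} (c : (Fin p → Finset α) → K) :
    (Fin p → Finset α) → K := fun t =>
  ∑ σ ∈ univ.filter (fun σ : Equiv.Perm α => ∀ a, a ∉ Q → σ a = a),
    ((Equiv.Perm.sign σ : ℤ) : K) * c (fun i => (t i).map σ.toEmbedding)

/-- iterated exterior multiplication `e 0 ∧ e 1 ∧ ... ∧ c`. -/
def wdgs {B : Type} [DecidableEq B] {p : ℕ} : (m : ℕ) → (Fin m → B) → ((Fin p → B) → K) →
    ((Fin (p + m) → B) → K)
  | 0, _, c => c
  | m + 1, e, c => wdg (e 0) (wdgs m (Fin.tail e) c)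

/-- `m` disjoint edges each containing exactly one point of `Q`. -/
def EQ [Fintype α] [DecidableEq α] (d : ℕ) (Q : Finset α) (m : ℕ) (e : Fin m → Finset α) : Prop :=
  vm d univ m e ∧ ∀ k, (e k ∩ Q).card = 1

/-- the points outside `Q` and outside the edges `e`. -/
def RQ [Fintype α] [DecidableEq α] (Q : Finset α) {m : ℕ} (e : Fin m → Finset α) : Finset α :=
  (univ \ Q) \ univ.biUnion e

/-- the antisymmetrized element `(q_0 f_0) ∧ ... ∧ (q_{m-1} f_{m-1}) ∧ u`. -/
def E0 [Fintype α] [DecidableEq α] (Q : Finset α) {m : ℕ} (q : Fin (m + 1) → α)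
    (f : Fin m → Finset α) {p : ℕ} (u : (Fin p → Finset α) → K) : (Fin (p + m) → Finset α) → K :=
  AQ Q (wdgs m (fun k => insert (q k.castSucc) (f k)) u)

end defs

/-! ### combinatorial lemma -/

/-- the exchange lemma: partial partitions with `e` and `e + 1` blocks of size `r`. -/
def S_Ext : Prop :=
  ∀ (K : Type) [Field K] [CharZero K] (M : Type) [AddCommGroup M] [Module K M] (β : Type)
    [DecidableEq β] (r e c : ℕ) (S : Finset β) (Φ : (Fin e → Finset β) → M), 1 ≤ r →
    S.card = e * r + c → e + r ≤ c →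
    (∀ (π : Equiv.Perm (Fin e)) (f : Fin e → Finset β), Φ (f ∘ π) = Φ f) →
    (∀ f : Fin (e + 1) → Finset β, vm r S (e + 1) f → ∑ k : Fin (e + 1), Φ (k.removeNth f) = 0) →
    ∀ f : Fin e → Finset β, vm r S e f → Φ f = 0

/-! ### reduction of an antisymmetric cycle to elements `E0` -/

/-- the part of an antisymmetric cycle with all points of `Q` covered can be removed. -/
def S_XSpan : Prop :=
  ∀ (K : Type) [Field K] [CharZero K] (α : Type) [Fintype α] [DecidableEq α] (d m p s : ℕ)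
    (Q : Finset α), 1 ≤ d → Q.card = m + 1 → Fintype.card α = m * d + 1 + s →
    (∀ p' s' : ℕ, p = p' + 1 → Fintype.card α = (m + 1) * d + s' →
      ∀ P' : Finset α, P'.card = s' → rVan K univ (vm d P') p') →
    ∀ z : (Fin (p + m) → Finset α) → K, IsCy d univ (p + m) z → AntiF Q z →
    ∃ (g : (Fin (p + m + 1) → Finset α) → K) (u : (Fin m → Finset α) → (Fin p → Finset α) → K),
      rCh (vm d univ) (p + m + 1) g ∧
      (∀ e, (EQ d Q m e ∧ IsCy d (RQ Q e) p (u e)) ∨ u e = fun _ => 0) ∧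
      ∀ t, vm d univ (p + m) t → z t = dd univ g t + ∑ e, wdgs m e (u e) t

/-- products with boundaries are boundaries after antisymmetrization. -/
def S_XBd : Prop :=
  ∀ (K : Type) [Field K] [CharZero K] (α : Type) [Fintype α] [DecidableEq α] (d m p : ℕ)
    (Q : Finset α), 1 ≤ m → Q.card = m + 1 →
    ∀ e : Fin m → Finset α, EQ d Q m e → ∀ u : (Fin p → Finset α) → K, IsBd d (RQ Q e) p u →
    IsBd d univ (p + m) (AQ Q (wdgs m e u))

/-- the relation coming from one more covered point. -/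
def S_XRel : Prop :=
  ∀ (K : Type) [Field K] [CharZero K] (α : Type) [Fintype α] [DecidableEq α] (d m p : ℕ)
    (Q : Finset α) (q : Fin (m + 1) → α), 1 ≤ d → Function.Injective q →
    (∀ a, a ∈ Q ↔ ∃ k, q k = a) → ∀ f : Fin (m + 1) → Finset α, vm (d - 1) (univ \ Q) (m + 1) f →
    ∀ u : (Fin p → Finset α) → K, IsCy d (RQ Q f) p u →
    IsBd d univ (p + m) (fun t => ∑ k : Fin (m + 1), E0 Q q (k.removeNth f) u t)

/-- symmetry of `E0` in the blocks. -/
def S_XSym : Prop :=
  ∀ (K : Type) [Field K] [CharZero K] (α : Type) [Fintype α] [DecidableEq α] (d m p : ℕ)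
    (Q : Finset α) (q : Fin (m + 1) → α), Function.Injective q →
    (∀ a, a ∈ Q ↔ ∃ k, q k = a) → ∀ f : Fin m → Finset α, (∀ k, f k ⊆ univ \ Q) →
    ∀ u : (Fin p → Finset α) → K, rCh (vm d (univ \ Q)) p u →
    ∀ π : Equiv.Perm (Fin m), ∀ t, E0 Q q (f ∘ π) u t = E0 Q q f u t

/-- reduction of antisymmetric cycles to the elements `E0`. -/
def S_XRed : Prop :=
  ∀ (K : Type) [Field K] [CharZero K] (α : Type) [Fintype α] [DecidableEq α] (d m p s : ℕ)
    (Q : Finset α) (q : Fin (m + 1) → α), 1 ≤ d → Function.Injective q →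
    (∀ a, a ∈ Q ↔ ∃ k, q k = a) → Fintype.card α = m * d + 1 + s →
    (∀ p' s' : ℕ, p = p' + 1 → Fintype.card α = (m + 1) * d + s' →
      ∀ P' : Finset α, P'.card = s' → rVan K univ (vm d P') p') →
    (∀ (f : Fin m → Finset α) (u : (Fin p → Finset α) → K), vm (d - 1) (univ \ Q) m f →
      IsCy d (RQ Q f) p u → IsBd d univ (p + m) (E0 Q q f u)) →
    ∀ z : (Fin (p + m) → Finset α) → K, IsCy d univ (p + m) z → AntiF Q z →
      IsBd d univ (p + m) z

/-! ### the classes of lines -/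

/-- sign of `k` as an arrangement of `0, ..., d - 1` (zero if it is not one). -/
def eps (d : ℕ) (k : Fin d → ℕ) : ℤ :=
  ∑ σ : Equiv.Perm (Fin d), if (∀ i, k i = (σ i : ℕ)) then (Equiv.Perm.sign σ : ℤ) else 0

/-- contraction of `e_0 ∧ ... ∧ e_r`. -/
def Aco (r : ℕ) (k : Fin r → ℕ) : ℤ :=
  ∑ j ∈ range (r + 1), eps (r + 1) (Fin.cons j k)

open Classical in
/-- the cycle `a_{X,Y}` (multilinear form of `z(m_1) ... z(m_r)`). -/
noncomputable def aXY {K : Type} [Field K] {α : Type} [DecidableEq α] (r : ℕ) (X Y : Finset α) :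
    (Fin r → Finset α) → K := fun t =>
  if vm (r + 1) (X ∪ Y) r t then
    (((∏ i, ((t i ∩ X).card.factorial * (t i ∩ Y).card.factorial)) *
      ((X.card - ∑ i, (t i ∩ X).card).factorial * (Y.card - ∑ i, (t i ∩ Y).card).factorial) : ℕ)
        : K) * ((Aco r (fun i => (t i ∩ Y).card) : ℤ) : K)
  else 0

/-- the class `z_X` (`Y` the complement). -/
noncomputable def zXY {K : Type} [Field K] {α : Type} [DecidableEq α] (r : ℕ) (X Y : Finset α) :
    (Fin r → Finset α) → K := fun t =>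
  ∑ f ∈ powersetCard r Y, aXY r X (Y \ f) t

/-- the chain `c_0` in two variables. -/
def c0 {K : Type} [Field K] (r : ℕ) : (Fin r → (Fin 2 → ℕ)) → K := fun t =>
  if (∀ i, t i 0 + t i 1 = r + 1) then ((Aco r (fun i => t i 1) : ℤ) : K) else 0

/-- `a_{X,Y}` is a cycle. -/
def S_XA1 : Prop :=
  ∀ (K : Type) [Field K] [CharZero K] (α : Type) [Fintype α] [DecidableEq α] (r : ℕ)
    (X Y : Finset α), 2 ≤ r → Disjoint X Y → 2 * X.card = r * (r + 3) →
    2 * Y.card = r * (r + 1) → IsCy (K := K) (r + 1) (X ∪ Y) r (aXY r X Y)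

/-- refined form of `S_RS`. -/
def S_RSr : Prop :=
  ∀ (K : Type) [Field K] [CharZero K] (n d p : ℕ) (w : Fin n → ℕ), 1 ≤ d →
    ∀ c : (Fin p → (Fin n → ℕ)) → K, rCh (vw d w) p c → rcyc (Mo n d) (vw d w) p c →
    (∀ t, vJ d w univ p t → c t = 0) →
    ∃ g : (Fin (p + 1) → (Fin n → ℕ)) → K, rCh (vw d w) (p + 1) g ∧
      ∀ t, vw d w p t → dd (Mo n d) g t = c t

/-- two variables, unbalanced weights. -/
def S_XC2a : Prop :=
  ∀ (K : Type) [Field K] [CharZero K] (r : ℕ) (w : Fin 2 → ℕ), 2 ≤ r →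
    w 0 + w 1 = r * (r + 3) → w 0 ≠ w 1 → rVan K (Mo 2 (r + 1)) (vw (r + 1) w) r

/-- two variables, balanced weight. -/
def S_XC2b : Prop :=
  ∀ (K : Type) [Field K] [CharZero K] (r : ℕ) (w : Fin 2 → ℕ), 2 ≤ r →
    w 0 + w 1 = r * (r + 3) → w 0 = w 1 →
    ∀ c : (Fin r → (Fin 2 → ℕ)) → K, rCh (vw (r + 1) w) r c →
      rcyc (Mo 2 (r + 1)) (vw (r + 1) w) r c →
      ∃ (l : K) (g : (Fin (r + 1) → (Fin 2 → ℕ)) → K), rCh (vw (r + 1) w) (r + 1) g ∧
        ∀ t, vw (r + 1) w r t → dd (Mo 2 (r + 1)) g t = c t - l * c0 r t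

/-- `z_X` as a pull back. -/
def S_XPb : Prop :=
  ∀ (K : Type) [Field K] [CharZero K] (β : Type) [Fintype β] [DecidableEq β] (r : ℕ)
    (X : Finset β), 2 ≤ r → Fintype.card β = r * (r + 3) → 2 * X.card = r * (r + 3) →
    ∀ t : Fin r → Finset β, pb (K := K) (r + 1) (fun a => if a ∈ X then (0 : Fin 2) else 1) (c0 r) t
      = (r.factorial : K) * zXY r X (univ \ X) t

/-- invariant cycles for two blocks. -/
def S_XI2 : Prop :=
  ∀ (K : Type) [Field K] [CharZero K] (β : Type) [Fintype β] [DecidableEq β] (r : ℕ),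
    2 ≤ r → Fintype.card β = r * (r + 3) → ∀ (π : β → Fin 2) (z : (Fin r → Finset β) → K),
    IsCy (r + 1) univ r z → InvF π z →
    (IsBd (r + 1) univ r z) ∨ (2 * (univ.filter (fun a => π a = 0)).card = r * (r + 3) ∧
      ∃ l : K, IsBd (r + 1) univ r (fun t => z t -
        l * zXY r (univ.filter (fun a => π a = 0)) (univ \ univ.filter (fun a => π a = 0)) t))

/-- three-point antisymmetric cycles at `(2d-2, d-1)` are boundaries. -/
def S_XAnti3 : Prop :=
  ∀ (K : Type) [Field K] [CharZero K] (β : Type) [Fintype β] [DecidableEq β] (r : ℕ),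
    2 ≤ r → Fintype.card β = r * (r + 3) → ∀ (Q : Finset β), Q.card = 3 →
    ∀ z : (Fin r → Finset β) → K, IsCy (r + 1) univ r z → AntiF Q z → IsBd (r + 1) univ r z

/-- the cycles at `(2d-2, d-1)` are spanned by the `z_X`. -/
def S_XT3 : Prop :=
  ∀ (K : Type) [Field K] [CharZero K] (β : Type) [Fintype β] [DecidableEq β] (r : ℕ),
    2 ≤ r → Fintype.card β = r * (r + 3) → ∀ z : (Fin r → Finset β) → K,
    IsCy (r + 1) univ r z → ∃ l : Finset β → K, IsBd (r + 1) univ r (fun t => z t -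
      ∑ X ∈ univ.filter (fun X : Finset β => 2 * X.card = r * (r + 3)),
        l X * zXY r X (univ \ X) t)

/-- no classes invariant under the permutations of `|X| + 1` points. -/
def S_XIII : Prop :=
  ∀ (K : Type) [Field K] [CharZero K] (β : Type) [Fintype β] [DecidableEq β] (r : ℕ),
    2 ≤ r → Fintype.card β = r * (r + 3) → ∀ (X : Finset β), 2 * X.card = r * (r + 3) + 2 →
    ∀ z : (Fin r → Finset β) → K, IsCy (r + 1) univ r z → InvS X z → IsBd (r + 1) univ r z

/-- `a_{X,Y∖f}` does not depend on `f` modulo boundaries. -/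
def S_XT2 : Prop :=
  ∀ (K : Type) [Field K] [CharZero K] (β : Type) [Fintype β] [DecidableEq β] (r : ℕ),
    2 ≤ r → Fintype.card β = r * (r + 3) → ∀ (X f f' : Finset β), 2 * X.card = r * (r + 3) →
    f ⊆ univ \ X → f' ⊆ univ \ X → f.card = r → f'.card = r →
    IsBd (K := K) (r + 1) univ r
      (fun t => aXY r X ((univ \ X) \ f) t - aXY r X ((univ \ X) \ f') t)

/-- restriction of a function on tuples of subsets to a subtype. -/
def down {K : Type} {α : Type} (P : Finset α) {p : ℕ} (c : (Fin p → Finset α) → K) :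
    (Fin p → Finset {a // a ∈ P}) → K :=
  fun s => c (fun i => (s i).map (Function.Embedding.subtype _))

/-- transport between a subset and the corresponding subtype. -/
def S_Down : Prop :=
  ∀ (K : Type) [Field K] [CharZero K] (α : Type) [Fintype α] [DecidableEq α] (d p : ℕ)
    (P : Finset α) (c : (Fin p → Finset α) → K), rCh (vm d P) p c →
    rCh (vm d (univ : Finset {a // a ∈ P})) p (down P c) ∧
    (IsCy d P p c → IsCy d (univ : Finset {a // a ∈ P}) p (down P c)) ∧
    (IsBd d (univ : Finset {a // a ∈ P}) p (down P c) → IsBd d P p c)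

/-- `S_XT3` for subsets. -/
def S_XA3 : Prop :=
  ∀ (K : Type) [Field K] [CharZero K] (α : Type) [Fintype α] [DecidableEq α] (r : ℕ)
    (A : Finset α), 2 ≤ r → A.card = r * (r + 3) → ∀ u : (Fin r → Finset α) → K,
    IsCy (r + 1) A r u → ∃ l : Finset α → K, IsBd (r + 1) A r (fun t => u t -
      ∑ X ∈ A.powerset.filter (fun X : Finset α => 2 * X.card = r * (r + 3)),
        l X * zXY r X (A \ X) t)

/-- `S_XT2` for subsets. -/
def S_XA2 : Prop :=
  ∀ (K : Type) [Field K] [CharZero K] (α : Type) [Fintype α] [DecidableEq α] (r : ℕ)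
    (X Y f f' : Finset α), 2 ≤ r → Disjoint X Y → 2 * X.card = r * (r + 3) →
    2 * Y.card = r * (r + 3) → f ⊆ Y → f' ⊆ Y → f.card = r → f'.card = r →
    IsBd (K := K) (r + 1) (X ∪ Y) r (fun t => aXY r X (Y \ f) t - aXY r X (Y \ f') t)

/-! ### the extremal step -/

/-- all elements `E0` are boundaries. -/
def S_XFin : Prop :=
  ∀ (K : Type) [Field K] [CharZero K] (α : Type) [Fintype α] [DecidableEq α] (r m : ℕ)
    (Q : Finset α) (q : Fin (m + 1) → α), 2 ≤ r → 1 ≤ m → 2 * (m + r) ≤ r * (r + 3) →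
    Function.Injective q → (∀ a, a ∈ Q ↔ ∃ k, q k = a) →
    Fintype.card α = m * (r + 1) + 1 + r * (r + 3) →
    ∀ (f : Fin m → Finset α) (u : (Fin r → Finset α) → K), vm r (univ \ Q) m f →
      IsCy (r + 1) (RQ Q f) r u → IsBd (r + 1) univ (r + m) (E0 Q q f u)

/-- the improved value at `T = 2 d - 1`. -/
def S_XMain : Prop :=
  ∀ (K : Type) [Field K] [CharZero K] (r : ℕ), 3 ≤ r → ML K (r + 1) (2 * r + 1) (r + 3)

/-- the improved bound: one more at `T = 2 d - 1`, `d ≥ 4`. -/
def bnd2 (d : ℕ) : ℕ → ℕ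
  | 0 => 0
  | T + 1 => min (theta d (T + 1))
      (bnd2 d T + (T + 1) / (d - 1) + 1 + if 4 ≤ d ∧ T + 1 = 2 * d - 1 then 1 else 0)

/-- value of the bound at the end of the first block. -/
def S_Bnd2Val : Prop := ∀ d : ℕ, 2 ≤ d → bnd2 d (2 * d - 2) = d - 1

/-- the multilinear vanishing theorem with the improved bound. -/
def S_Main2 : Prop :=
  ∀ (K : Type) [Field K] [CharZero K] (d T p : ℕ), 2 ≤ d → p < bnd2 d T → ML K d T p

end Pool.Agent.Work.MP_1233f5_ag.V
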